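import Pool.Agent.Lib.MP_8f149a_co.Defs

/-!
# From models to families; products of models
-/

set_option autoImplicit false

namespace Pool.Agent.Lib.MP_8f149a_co

open Finset

/-- A model over an alphabet of size `q` gives a family on `k q` points. -/
theorem card_le_maxFam {k : ℕ} {L : Finset ℕ} {I : Finset (Finset (Fin k))}
    (hI : IsPattern k L I) {X : Type} [Fintype X] [DecidableEq X] (S : Finset (Fin k → X))
    (hS : IsModel I S) (n : ℕ) (hn : k * Fintype.card X ≤ n) : S.card ≤ maxFam n k L := by
  classical
  have hcard : Fintype.card (Fin k × X) ≤ Fintype.card (Fin n) := by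
    rw [Fintype.card_prod, Fintype.card_fin, Fintype.card_fin]
    exact hn
  obtain ⟨e⟩ := Function.Embedding.nonempty_of_card_le hcard
  let Φ : (Fin k → X) → Finset (Fin n) := fun x => univ.image fun i => e (i, x i)
  have hmem : ∀ (x : Fin k → X) (a : Fin n), a ∈ Φ x ↔ ∃ i, e (i, x i) = a := by
    intro x a
    simp [Φ]
  have hinj1 : ∀ x : Fin k → X, Function.Injective fun i => e (i, x i) := by
    intro x i j hij
    have := e.injective hij
    exact (Prod.mk.inj this).1
  have hc : ∀ x : Fin k → X, (Φ x).card = k := by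
    intro x
    simp only [Φ]
    rw [card_image_of_injective _ (hinj1 x), card_univ, Fintype.card_fin]
  have hint : ∀ x y : Fin k → X, (Φ x ∩ Φ y).card = (agr x y).card := by
    intro x y
    have h1 : Φ x ∩ Φ y = (agr x y).image fun i => e (i, x i) := by
      ext a
      rw [mem_inter, hmem, hmem, mem_image]
      constructor
      · rintro ⟨⟨i, hi⟩, ⟨j, hj⟩⟩
        have h2 := e.injective (hi.trans hj.symm)
        have h3 := (Prod.mk.inj h2).1
        subst h3
        exact ⟨i, mem_agr.2 (Prod.mk.inj h2).2, hi⟩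
      · rintro ⟨i, hi, ha⟩
        refine ⟨⟨i, ha⟩, ⟨i, ?_⟩⟩
        rw [← mem_agr.1 hi]
        exact ha
    rw [h1, card_image_of_injective _ (hinj1 x)]
  have hinj : Function.Injective Φ := by
    intro x y hxy
    by_contra hne
    have h1 := hint x y
    rw [← hxy, inter_self, hc] at h1
    apply agr_ne_univ hne
    rw [← card_eq_iff_eq_univ, Fintype.card_fin]
    exact h1.symm
  have hF : IsFam n k L (S.image Φ) := by
    constructor
    · intro A hA
      obtain ⟨x, _, rfl⟩ := mem_image.1 hA
      exact hc x
    · intro A hA B hB hAB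
      obtain ⟨x, hx, rfl⟩ := mem_image.1 hA
      obtain ⟨y, hy, rfl⟩ := mem_image.1 hB
      have hxy : x ≠ y := fun h => hAB (by rw [h])
      rw [hint]
      exact (hI.2 _ (hS x hx y hy hxy)).1
  have := le_maxFam hF
  rwa [card_image_of_injective _ hinj] at this

/-- Powers of a model: the `t`-th power has `|S|^t` vectors over the alphabet `Fin t → X`. -/
theorem exists_power {k : ℕ} {L : Finset ℕ} {I : Finset (Finset (Fin k))}
    (hI : IsPattern k L I) {X : Type} [DecidableEq X] (S : Finset (Fin k → X))
    (hS : IsModel I S) (t : ℕ) :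
    ∃ S' : Finset (Fin k → (Fin t → X)), IsModel I S' ∧ S'.card = S.card ^ t ∧
      ∀ x ∈ S', ∀ j, (fun i => x i j) ∈ S := by
  classical
  let Ψ : (Fin t → (Fin k → X)) → (Fin k → (Fin t → X)) := fun z i j => z j i
  have hΨ : Function.Injective Ψ := by
    intro z z' h
    funext j i
    exact congrFun (congrFun h i) j
  -- intersections
  have hcl : ∀ (z z' : Fin t → (Fin k → X)) (J : Finset (Fin t)), J.Nonempty →
      (∀ j ∈ J, agr (z j) (z' j) ∈ I) →
      (univ.filter fun i => ∀ j ∈ J, z j i = z' j i) ∈ I := by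
    intro z z' J hJ
    induction hJ using Finset.Nonempty.cons_induction with
    | singleton a =>
      intro h
      have h1 := h a (mem_singleton_self a)
      have h2 : (univ.filter fun i => ∀ j ∈ ({a} : Finset (Fin t)), z j i = z' j i) =
          agr (z a) (z' a) := by
        ext i
        simp [agr]
      rw [h2]
      exact h1
    | cons a s ha hs ih =>
      intro h
      have h1 := h a (mem_cons_self a s)
      have h2 := ih fun j hj => h j (mem_cons_of_mem hj)
      have h3 : (univ.filter fun i => ∀ j ∈ cons a s ha, z j i = z' j i) =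
          agr (z a) (z' a) ∩ (univ.filter fun i => ∀ j ∈ s, z j i = z' j i) := by
        ext i
        simp [agr]
      rw [h3]
      exact hI.1 _ h1 _ h2
  refine ⟨(Fintype.piFinset fun _ : Fin t => S).image Ψ, ?_, ?_, ?_⟩
  · intro x hx y hy hxy
    obtain ⟨z, hz, rfl⟩ := mem_image.1 hx
    obtain ⟨z', hz', rfl⟩ := mem_image.1 hy
    rw [Fintype.mem_piFinset] at hz hz'
    have hne : z ≠ z' := fun h => hxy (by rw [h])
    have h1 : agr (Ψ z) (Ψ z') =
        univ.filter fun i => ∀ j ∈ (univ.filter fun j => z j ≠ z' j), z j i = z' j i := by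
      ext i
      rw [mem_agr, mem_filter]
      constructor
      · intro h
        exact ⟨mem_univ i, fun j _ => congrFun h j⟩
      · rintro ⟨_, h⟩
        funext j
        by_cases hj : z j = z' j
        · show z j i = z' j i
          rw [hj]
        · exact h j (mem_filter.2 ⟨mem_univ j, hj⟩)
    rw [h1]
    apply hcl
    · obtain ⟨j, hj⟩ := Function.ne_iff.1 hne
      exact ⟨j, mem_filter.2 ⟨mem_univ j, hj⟩⟩
    · intro j hj
      exact hS _ (hz j) _ (hz' j) (mem_filter.1 hj).2
  · rw [card_image_of_injective _ hΨ, Fintype.card_piFinset_const]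
  · intro x hx j
    obtain ⟨z, hz, rfl⟩ := mem_image.1 hx
    rw [Fintype.mem_piFinset] at hz
    exact hz j

/-- Change of alphabet by an injection of the letters used. -/
theorem exists_relabel {k : ℕ} {I : Finset (Finset (Fin k))} {X Y : Type}
    [DecidableEq X] [Fintype Y] [DecidableEq Y] (S : Finset (Fin k → X)) (hS : IsModel I S)
    (h : ∀ i : Fin k, (S.image fun x => x i).card ≤ Fintype.card Y) :
    ∃ S' : Finset (Fin k → Y), IsModel I S' ∧ S'.card = S.card := by
  classical
  rcases S.eq_empty_or_nonempty with hS0 | ⟨x0, hx0⟩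
  · subst hS0
    exact ⟨∅, by intro x hx; simp at hx, rfl⟩
  have hg : ∀ i : Fin k, ∃ g : X → Y, Set.InjOn g (S.image fun x => x i : Finset X) := by
    intro i
    have hcard : Fintype.card {a // a ∈ S.image fun x => x i} ≤ Fintype.card Y := by
      rw [Fintype.card_coe]
      exact h i
    obtain ⟨e⟩ := Function.Embedding.nonempty_of_card_le hcard
    have hx0' : x0 i ∈ S.image fun x => x i := mem_image_of_mem _ hx0
    refine ⟨fun a => if ha : a ∈ S.image (fun x => x i) then e ⟨a, ha⟩ else e ⟨x0 i, hx0'⟩, ?_⟩
    intro a ha b hb hab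
    rw [mem_coe] at ha hb
    simp only [ha, hb, dif_pos] at hab
    have := e.injective hab
    exact congrArg Subtype.val this
  choose g hg using hg
  let Φ : (Fin k → X) → (Fin k → Y) := fun x i => g i (x i)
  have hagr : ∀ x ∈ S, ∀ y ∈ S, agr (Φ x) (Φ y) = agr x y := by
    intro x hx y hy
    ext i
    rw [mem_agr, mem_agr]
    constructor
    · intro hi
      exact hg i (mem_coe.2 (mem_image_of_mem _ hx)) (mem_coe.2 (mem_image_of_mem _ hy)) hi
    · intro hi
      show g i (x i) = g i (y i)
      rw [hi]
  have hinj : Set.InjOn Φ S := by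
    intro x hx y hy hxy
    by_contra hne
    apply agr_ne_univ hne
    rw [← hagr x hx y hy, hxy]
    ext i
    simp [agr]
  refine ⟨S.image Φ, ?_, card_image_of_injOn hinj⟩
  intro x hx y hy hxy
  obtain ⟨z, hz, rfl⟩ := mem_image.1 hx
  obtain ⟨z', hz', rfl⟩ := mem_image.1 hy
  rw [hagr z hz z' hz']
  exact hS z hz z' hz' fun h => hxy (by rw [h])

end Pool.Agent.Lib.MP_8f149a_co
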