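import Pool.Agent.Lib.MP_8f149a_co.Defs

/-!
# From families of k-sets to sets of vectors
-/

set_option autoImplicit false

namespace Pool.Agent.Lib.MP_8f149a_co

open Finset

open Classical in
private theorem count_colourings {n k : ℕ} (A : Finset (Fin n)) (hA : A.card = k) :
    k ^ n ≤ k ^ k * (univ.filter (fun χ : Fin n → Fin k => Set.InjOn χ (A : Set (Fin n)))).card := by
  obtain ⟨e⟩ : Nonempty (A ≃ Fin k) := by
    refine ⟨Fintype.equivFinOfCardEq ?_⟩
    simpa using hA
  have h1 : Fintype.card (Fin n → Fin k) = k ^ n := by simp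
  have h2 : Fintype.card (A → Fin k) = k ^ k := by
    simp [hA]
  rw [← h1, ← h2, ← Finset.card_univ (α := A → Fin k), ← Finset.card_univ (α := Fin n → Fin k),
    ← Finset.card_product]
  refine Finset.card_le_card_of_injOn
    (fun χ => (fun a : A => χ a.1, fun j => if h : j ∈ A then e ⟨j, h⟩ else χ j)) ?_ ?_
  · intro χ _
    simp only [Finset.coe_product, Set.mem_prod, Finset.mem_coe, Finset.mem_univ, true_and,
      Finset.mem_filter]
    intro a ha b hb hab
    have ha' : a ∈ A := ha
    have hb' : b ∈ A := hb
    simp only [ha', hb', dif_pos] at hab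
    have := e.injective hab
    simpa using congrArg Subtype.val this
  · intro χ _ χ' _ h
    simp only [Prod.mk.injEq] at h
    funext j
    by_cases hj : j ∈ A
    · exact congrFun h.1 ⟨j, hj⟩
    · have := congrFun h.2 j
      simpa [hj] using this

/-- Passing to a k-partite subfamily. -/
theorem exists_vectors (n k : ℕ) (L : Finset ℕ) (F : Finset (Finset (Fin n)))
    (hF : IsFam n k L F) :
    ∃ G : Finset (Fin k → Fin n), (∀ x ∈ G, ∀ y ∈ G, x ≠ y → (agr x y).card ∈ L) ∧
      F.card ≤ k ^ k * G.card := by
  classical
  rcases Nat.eq_zero_or_pos k with rfl | hk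
  · refine ⟨univ, ?_, ?_⟩
    · intro x _ y _ h
      exact absurd (Subsingleton.elim x y) h
    · have h1 : F.card ≤ 1 := Finset.card_le_one.2 fun A hA B hB => by
        rw [card_eq_zero.1 (hF.1 A hA), card_eq_zero.1 (hF.1 B hB)]
      simpa using h1
  · obtain ⟨χ, hχ⟩ : ∃ χ : Fin n → Fin k,
        F.card ≤ k ^ k * (F.filter fun A : Finset (Fin n) => Set.InjOn χ (A : Set (Fin n))).card := by
      by_contra hcon
      push Not at hcon
      have h1 : ∑ χ : Fin n → Fin k,
          k ^ k * (F.filter fun A : Finset (Fin n) => Set.InjOn χ (A : Set (Fin n))).card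
          < ∑ χ : Fin n → Fin k, F.card := by
        refine Finset.sum_lt_sum_of_nonempty ?_ fun χ _ => hcon χ
        exact ⟨fun _ => ⟨0, hk⟩, mem_univ _⟩
      have h2 : ∑ χ : Fin n → Fin k, F.card = k ^ n * F.card := by
        simp
      have h3 : ∑ χ : Fin n → Fin k,
          k ^ k * (F.filter fun A : Finset (Fin n) => Set.InjOn χ (A : Set (Fin n))).card =
          ∑ A ∈ F, k ^ k *
            (univ.filter (fun χ : Fin n → Fin k => Set.InjOn χ (A : Set (Fin n)))).card := by
        rw [← Finset.mul_sum, ← Finset.mul_sum]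
        congr 1
        simp only [Finset.card_filter]
        exact Finset.sum_comm
      have h4 : k ^ n * F.card ≤ ∑ A ∈ F, k ^ k *
            (univ.filter (fun χ : Fin n → Fin k => Set.InjOn χ (A : Set (Fin n)))).card := by
        calc k ^ n * F.card = ∑ A ∈ F, k ^ n := by simp [mul_comm]
          _ ≤ _ := Finset.sum_le_sum fun A hA => count_colourings A (hF.1 A hA)
      omega
    have hex : ∀ A : {A : Finset (Fin n) // A ∈ F.filter fun A : Finset (Fin n) =>
        Set.InjOn χ (A : Set (Fin n))}, ∀ i : Fin k,
        ∃ a ∈ A.1, χ a = i := by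
      intro A i
      have hA := (Finset.mem_filter.1 A.2)
      have him : A.1.image χ = univ := by
        apply Finset.eq_univ_of_card
        rw [Finset.card_image_of_injOn hA.2, hF.1 _ hA.1]
        simp
      have : i ∈ A.1.image χ := by rw [him]; exact mem_univ i
      simpa using this
    choose x hxA hxc using hex
    have hinv : ∀ A : {A : Finset (Fin n) // A ∈ F.filter fun A : Finset (Fin n) =>
        Set.InjOn χ (A : Set (Fin n))}, ∀ a ∈ A.1,
        x A (χ a) = a := by
      intro A a ha
      exact (Finset.mem_filter.1 A.2).2 (hxA A _) ha (hxc A _)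
    have hxinj : ∀ A, Function.Injective (x A) := by
      intro A i j hij
      rw [← hxc A i, ← hxc A j, hij]
    have hagr : ∀ A B, (agr (x A) (x B)).card = (A.1 ∩ B.1).card := by
      intro A B
      rw [← Finset.card_image_of_injective _ (hxinj A)]
      congr 1
      ext a
      simp only [Finset.mem_image, mem_agr, Finset.mem_inter]
      constructor
      · rintro ⟨i, hi, rfl⟩
        exact ⟨hxA A i, by rw [hi]; exact hxA B i⟩
      · rintro ⟨ha, hb⟩
        exact ⟨χ a, by rw [hinv A a ha, hinv B a hb], hinv A a ha⟩
    have hinjx : Function.Injective x := by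
      intro A B hAB
      apply Subtype.ext
      ext a
      constructor
      · intro ha
        have h1 := hinv A a ha
        rw [hAB] at h1
        rw [← h1]
        exact hxA B _
      · intro ha
        have h1 := hinv B a ha
        rw [← hAB] at h1
        rw [← h1]
        exact hxA A _
    refine ⟨univ.image x, ?_, ?_⟩
    · intro u hu v hv huv
      obtain ⟨A, _, rfl⟩ := Finset.mem_image.1 hu
      obtain ⟨B, _, rfl⟩ := Finset.mem_image.1 hv
      rw [hagr]
      refine hF.2 _ (Finset.mem_filter.1 A.2).1 _ (Finset.mem_filter.1 B.2).1 ?_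
      intro h
      exact huv (congrArg x (Subtype.ext h))
    · rw [Finset.card_image_of_injective _ hinjx]
      simpa using hχ

end Pool.Agent.Lib.MP_8f149a_co
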