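import Mathlib

/-!
# MP_8f149a_co: families of k-sets with prescribed intersection sizes - definitions
-/

set_option autoImplicit false

namespace Pool.Agent.Lib.MP_8f149a_co

open Finset

/-- A family of `k`-subsets of `Fin n` whose distinct members meet in sizes from `L`. -/
def IsFam (n k : ℕ) (L : Finset ℕ) (F : Finset (Finset (Fin n))) : Prop :=
  (∀ A ∈ F, A.card = k) ∧ ∀ A ∈ F, ∀ B ∈ F, A ≠ B → (A ∩ B).card ∈ L

/-- `m(n,k,L)`: the largest size of such a family. -/
noncomputable def maxFam (n k : ℕ) (L : Finset ℕ) : ℕ :=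
  sSup {t | ∃ F : Finset (Finset (Fin n)), IsFam n k L F ∧ F.card = t}

/-- The set of coordinates in which two vectors agree. -/
def agr {k : ℕ} {X : Type} [DecidableEq X] (x y : Fin k → X) : Finset (Fin k) :=
  univ.filter fun i => x i = y i

/-- An intersection closed family of proper subsets of `Fin k` with sizes in `L`. -/
def IsPattern (k : ℕ) (L : Finset ℕ) (I : Finset (Finset (Fin k))) : Prop :=
  (∀ A ∈ I, ∀ B ∈ I, A ∩ B ∈ I) ∧ ∀ A ∈ I, A.card ∈ L ∧ A ≠ univ

/-- A set of vectors such that any two distinct ones agree exactly in a member of `I`. -/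
def IsModel {k : ℕ} {X : Type} [DecidableEq X] (I : Finset (Finset (Fin k)))
    (S : Finset (Fin k → X)) : Prop :=
  ∀ x ∈ S, ∀ y ∈ S, x ≠ y → agr x y ∈ I

/-- The entropy of the distribution `p` on the finite set `S`. -/
noncomputable def ent {k : ℕ} (S : Finset (Fin k → ℕ)) (p : (Fin k → ℕ) → ℝ) : ℝ :=
  ∑ s ∈ S, Real.negMulLog (p s)

/-- The entropy of the `i`-th coordinate of the distribution `p` on `S`. -/
noncomputable def margEnt {k : ℕ} (S : Finset (Fin k → ℕ)) (p : (Fin k → ℕ) → ℝ) (i : Fin k) : ℝ :=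
  ∑ a ∈ S.image fun s => s i, Real.negMulLog (∑ s ∈ S.filter (fun s => s i = a), p s)

theorem mem_agr {k : ℕ} {X : Type} [DecidableEq X] {x y : Fin k → X} {i : Fin k} :
    i ∈ agr x y ↔ x i = y i := by
  simp [agr]

theorem agr_ne_univ {k : ℕ} {X : Type} [DecidableEq X] {x y : Fin k → X} (h : x ≠ y) :
    agr x y ≠ univ := by
  intro he
  apply h
  funext i
  have : i ∈ agr x y := by rw [he]; exact mem_univ i
  exact mem_agr.1 this

theorem agr_comm {k : ℕ} {X : Type} [DecidableEq X] (x y : Fin k → X) : agr x y = agr y x := by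
  ext i
  simp [agr, eq_comm]

theorem le_maxFam {n k : ℕ} {L : Finset ℕ} {F : Finset (Finset (Fin n))} (h : IsFam n k L F) :
    F.card ≤ maxFam n k L := by
  apply le_csSup
  · refine ⟨2 ^ (2 ^ n), ?_⟩
    rintro t ⟨G, _, rfl⟩
    calc G.card ≤ Fintype.card (Finset (Fin n)) := Finset.card_le_univ G
      _ = 2 ^ n := by simp
      _ ≤ 2 ^ (2 ^ n) := Nat.pow_le_pow_right (by norm_num) Nat.lt_two_pow_self.le
  · exact ⟨F, h, rfl⟩

theorem exists_maxFam (n k : ℕ) (L : Finset ℕ) :
    ∃ F : Finset (Finset (Fin n)), IsFam n k L F ∧ F.card = maxFam n k L := by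
  have h : maxFam n k L ∈ {t | ∃ F : Finset (Finset (Fin n)), IsFam n k L F ∧ F.card = t} := by
    apply Nat.sSup_mem
    · exact ⟨0, ∅, ⟨by simp, by simp⟩, by simp⟩
    · refine ⟨2 ^ (2 ^ n), ?_⟩
      rintro t ⟨G, _, rfl⟩
      calc G.card ≤ Fintype.card (Finset (Fin n)) := Finset.card_le_univ G
        _ = 2 ^ n := by simp
        _ ≤ 2 ^ (2 ^ n) := Nat.pow_le_pow_right (by norm_num) Nat.lt_two_pow_self.le
  exact h

end Pool.Agent.Lib.MP_8f149a_co
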