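import Pool.Agent.Lib.MP_8f149a_co.Growth

/-!
# The exponent is approached by random vectors (uniform distributions)
-/

set_option autoImplicit false

namespace Pool.Agent.Lib.MP_8f149a_co

open Finset Filter Topology

private theorem negMulLog_le_aux (q x : ℝ) (hq : 0 < q) (hx : 0 ≤ x) :
    Real.negMulLog x ≤ x * Real.log q + 1 / q - x := by
  rcases hx.eq_or_lt with h0 | h0
  · rw [← h0, Real.negMulLog_zero]
    have : 0 < 1 / q := by positivity
    linarith
  · have h1 := Real.log_le_sub_one_of_pos (show 0 < 1 / (q * x) by positivity)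
    have h2 : Real.log (1 / (q * x)) = -Real.log q - Real.log x := by
      rw [one_div, Real.log_inv, Real.log_mul hq.ne' h0.ne']
      ring
    rw [h2] at h1
    have h3 : x * (-Real.log q - Real.log x) ≤ x * (1 / (q * x) - 1) :=
      mul_le_mul_of_nonneg_left h1 h0.le
    have h4 : x * (1 / (q * x) - 1) = 1 / q - x := by
      field_simp
    rw [h4] at h3
    rw [Real.negMulLog]
    linarith

theorem exists_ent {k : ℕ} {L : Finset ℕ} (β : ℝ) (h0 : 0 ≤ β) (hβ : β < expo k L) :
    ∃ I, IsPattern k L I ∧ ∃ (S : Finset (Fin k → ℕ)) (p : (Fin k → ℕ) → ℝ) (h : ℝ),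
      IsModel I S ∧ (∀ s ∈ S, 0 ≤ p s) ∧ ∑ s ∈ S, p s = 1 ∧ 0 < h ∧
      (∀ i, margEnt S p i ≤ h) ∧ β * h < ent S p := by
  classical
  have hne : (expSet k L).Nonempty := ⟨0, Or.inl rfl⟩
  obtain ⟨r, hr, hβr⟩ := exists_lt_of_lt_csSup hne hβ
  rcases hr with hr | ⟨I, hI, q, hq, S, hS, hSne, hr⟩
  · rw [hr] at hβr
    exact absurd h0 (not_le.2 hβr)
  have hq' : (2 : ℝ) ≤ q := by exact_mod_cast hq
  have hlogq : 0 < Real.log q := Real.log_pos (by linarith)
  let Φ : (Fin k → Fin q) → (Fin k → ℕ) := fun x i => (x i : ℕ)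
  have hΦ : Function.Injective Φ := by
    intro x y hxy
    funext i
    exact Fin.ext (congrFun hxy i)
  set S' : Finset (Fin k → ℕ) := S.image Φ with hS'
  have hcard : S'.card = S.card := card_image_of_injective _ hΦ
  have hN : 0 < (S'.card : ℝ) := by
    rw [hcard]
    exact_mod_cast hSne.card_pos
  have hagr : ∀ x y, agr (Φ x) (Φ y) = agr x y := by
    intro x y
    ext i
    rw [mem_agr, mem_agr]
    exact ⟨fun h => Fin.ext h, fun h => by show (x i : ℕ) = (y i : ℕ); rw [h]⟩
  refine ⟨I, hI, S', fun _ => 1 / (S'.card : ℝ), Real.log q, ?_, ?_, ?_, hlogq, ?_, ?_⟩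
  · intro x hx y hy hxy
    obtain ⟨z, hz, rfl⟩ := mem_image.1 hx
    obtain ⟨z', hz', rfl⟩ := mem_image.1 hy
    rw [hagr]
    exact hS z hz z' hz' fun h => hxy (by rw [h])
  · intro s _
    positivity
  · rw [sum_const, nsmul_eq_mul]
    field_simp
  · intro i
    unfold margEnt
    set A : Finset ℕ := S'.image fun s => s i with hA
    have hAq : (A.card : ℝ) ≤ q := by
      have h1 : A ⊆ Finset.range q := by
        intro a ha
        obtain ⟨s, hs, rfl⟩ := mem_image.1 ha
        obtain ⟨x, _, rfl⟩ := mem_image.1 hs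
        exact Finset.mem_range.2 (x i).2
      have h2 := card_le_card h1
      rw [card_range] at h2
      exact_mod_cast h2
    have hsum : ∑ a ∈ A, ∑ _s ∈ S'.filter (fun s => s i = a), 1 / (S'.card : ℝ) = 1 := by
      have h1 : ∑ a ∈ A, ∑ _s ∈ S'.filter (fun s => s i = a), 1 / (S'.card : ℝ) =
          ∑ _s ∈ S', 1 / (S'.card : ℝ) :=
        sum_fiberwise_of_maps_to (fun s hs => mem_image_of_mem _ hs) _
      rw [h1, sum_const, nsmul_eq_mul]
      field_simp
    calc ∑ a ∈ A, Real.negMulLog (∑ _s ∈ S'.filter (fun s => s i = a), 1 / (S'.card : ℝ))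
        ≤ ∑ a ∈ A, ((∑ _s ∈ S'.filter (fun s => s i = a), 1 / (S'.card : ℝ)) * Real.log q
            + 1 / (q : ℝ) - ∑ _s ∈ S'.filter (fun s => s i = a), 1 / (S'.card : ℝ)) := by
          refine sum_le_sum fun a _ => negMulLog_le_aux _ _ (by linarith) ?_
          exact sum_nonneg fun _ _ => by positivity
      _ = Real.log q + A.card * (1 / (q : ℝ)) - 1 := by
          rw [sum_sub_distrib, sum_add_distrib, ← sum_mul, hsum, sum_const, nsmul_eq_mul]
          ring
      _ ≤ Real.log q := by
          have : (A.card : ℝ) * (1 / (q : ℝ)) ≤ 1 := by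
            rw [mul_one_div, div_le_one (by linarith)]
            exact hAq
          linarith
  · unfold ent
    rw [sum_const, nsmul_eq_mul]
    have h1 : (S'.card : ℝ) * Real.negMulLog (1 / (S'.card : ℝ)) = Real.log S'.card := by
      rw [Real.negMulLog, one_div, Real.log_inv]
      field_simp
    rw [h1, hcard]
    rw [hr, lt_div_iff₀ hlogq] at hβr
    exact hβr

end Pool.Agent.Lib.MP_8f149a_co
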