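import Mathlib

/-!
# Typical sequences
-/

set_option autoImplicit false

namespace Pool.Agent.Lib.MP_8f149a_co

open Finset Filter Topology

/-- Chernoff bound: for a distribution `p` on a finite type and a function `f` with mean `μ`, the
`p^N`-measure of the sequences with `∑ f ≥ N (μ + ε)` tends to zero. -/
theorem chernoff {ι : Type} [Fintype ι] [DecidableEq ι] (p : ι → ℝ) (hp : ∀ s, 0 ≤ p s)
    (hp1 : ∑ s, p s = 1) (f : ι → ℝ) (ε : ℝ) (hε : 0 < ε) :
    Tendsto (fun N : ℕ => ∑ x ∈ (univ : Finset (Fin N → ι)).filter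
      (fun x => (N : ℝ) * (∑ s, p s * f s + ε) ≤ ∑ j, f (x j)), ∏ j, p (x j)) atTop (𝓝 0) := by
  set μ : ℝ := ∑ s, p s * f s with hμ
  set g : ι → ℝ := fun s => f s - μ - ε with hg
  set B : ℝ := 1 + ∑ s, |g s| with hB
  have hB1 : 1 ≤ B := by
    have : 0 ≤ ∑ s, |g s| := Finset.sum_nonneg (fun s _ => abs_nonneg _)
    rw [hB]; linarith
  have hgB : ∀ s, |g s| ≤ B := by
    intro s
    have h1 : |g s| ≤ ∑ s, |g s| :=
      Finset.single_le_sum (f := fun s => |g s|) (fun s _ => abs_nonneg _) (Finset.mem_univ s)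
    rw [hB]; linarith
  have hB0 : 0 < B := by linarith
  set t : ℝ := min (1 / B) (ε / (2 * B ^ 2)) with ht
  have ht0 : 0 < t := by
    rw [ht]; exact lt_min (by positivity) (by positivity)
  have ht1 : t * B ≤ 1 := by
    have h1 : t ≤ 1 / B := min_le_left _ _
    calc t * B ≤ 1 / B * B := by gcongr
      _ = 1 := by field_simp
  have ht2 : t * B ^ 2 ≤ ε / 2 := by
    have h1 : t ≤ ε / (2 * B ^ 2) := min_le_right _ _
    calc t * B ^ 2 ≤ ε / (2 * B ^ 2) * B ^ 2 := by gcongr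
      _ = ε / 2 := by field_simp
  set ρ : ℝ := ∑ s, p s * Real.exp (t * g s) with hρ
  have hρ0 : 0 ≤ ρ := Finset.sum_nonneg (fun s _ => mul_nonneg (hp s) (Real.exp_pos _).le)
  have hexp : ∀ s, Real.exp (t * g s) ≤ 1 + t * g s + t ^ 2 * B ^ 2 := by
    intro s
    have h1 : |t * g s| ≤ 1 := by
      rw [abs_mul, abs_of_pos ht0]
      exact le_trans (mul_le_mul_of_nonneg_left (hgB s) ht0.le) ht1
    have h2 := Real.abs_exp_sub_one_sub_id_le h1
    have h3 := (abs_le.1 h2).2
    have h4 : (t * g s) ^ 2 ≤ t ^ 2 * B ^ 2 := by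
      rw [mul_pow]
      have h5 : g s ^ 2 ≤ B ^ 2 := by
        rw [← sq_abs]
        exact pow_le_pow_left₀ (abs_nonneg _) (hgB s) 2
      exact mul_le_mul_of_nonneg_left h5 (sq_nonneg _)
    linarith
  have hmean : ∑ s, p s * g s = -ε := by
    have h1 : ∑ s, p s * g s = ∑ s, p s * f s - (μ + ε) * ∑ s, p s := by
      rw [Finset.mul_sum, ← Finset.sum_sub_distrib]
      refine Finset.sum_congr rfl (fun s _ => ?_)
      rw [hg]; ring
    rw [h1, hp1, ← hμ]; ring
  have hρ1 : ρ < 1 := by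
    have h1 : ρ ≤ ∑ s, p s * (1 + t * g s + t ^ 2 * B ^ 2) :=
      Finset.sum_le_sum (fun s _ => mul_le_mul_of_nonneg_left (hexp s) (hp s))
    have h2 : ∑ s, p s * (1 + t * g s + t ^ 2 * B ^ 2) = 1 - t * ε + t * (t * B ^ 2) := by
      have h3 : ∀ s, p s * (1 + t * g s + t ^ 2 * B ^ 2) =
          (1 + t ^ 2 * B ^ 2) * p s + t * (p s * g s) := fun s => by ring
      rw [Finset.sum_congr rfl (fun s _ => h3 s), Finset.sum_add_distrib, ← Finset.mul_sum,
        ← Finset.mul_sum, hp1, hmean]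
      ring
    have h4 : t * (t * B ^ 2) ≤ t * (ε / 2) := mul_le_mul_of_nonneg_left ht2 ht0.le
    have h5 : 0 < t * ε := mul_pos ht0 hε
    rw [h2] at h1
    nlinarith
  refine squeeze_zero (fun N => ?_) (fun N => ?_) (tendsto_pow_atTop_nhds_zero_of_lt_one hρ0 hρ1)
  · exact Finset.sum_nonneg (fun x _ => Finset.prod_nonneg (fun j _ => hp _))
  · rw [hρ, Fintype.sum_pow]
    calc ∑ x ∈ (univ : Finset (Fin N → ι)).filter
          (fun x => (N : ℝ) * (μ + ε) ≤ ∑ j, f (x j)), ∏ j, p (x j)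
        ≤ ∑ x ∈ (univ : Finset (Fin N → ι)).filter
          (fun x => (N : ℝ) * (μ + ε) ≤ ∑ j, f (x j)), ∏ j, (p (x j) * Real.exp (t * g (x j))) := by
          refine Finset.sum_le_sum (fun x hx => ?_)
          rw [Finset.mem_filter] at hx
          rw [Finset.prod_mul_distrib, ← Real.exp_sum]
          have h1 : 0 ≤ ∑ j, t * g (x j) := by
            rw [← Finset.mul_sum]
            apply mul_nonneg ht0.le
            have h2 : ∑ j, g (x j) = ∑ j, f (x j) - (N : ℝ) * (μ + ε) := by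
              have h3 : ∀ j, g (x j) = f (x j) - (μ + ε) := fun j => by rw [hg]; ring
              rw [Finset.sum_congr rfl (fun j _ => h3 j), Finset.sum_sub_distrib, Finset.sum_const,
                Finset.card_univ, Fintype.card_fin, nsmul_eq_mul]
            rw [h2]; linarith [hx.2]
          have h4 : 1 ≤ Real.exp (∑ j, t * g (x j)) := Real.one_le_exp h1
          exact le_mul_of_one_le_right (Finset.prod_nonneg (fun j _ => hp _)) h4
      _ ≤ ∑ x : Fin N → ι, ∏ j, (p (x j) * Real.exp (t * g (x j))) := by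
          refine Finset.sum_le_sum_of_subset_of_nonneg (Finset.subset_univ _) (fun x _ _ => ?_)
          exact Finset.prod_nonneg (fun j _ => mul_nonneg (hp _) (Real.exp_pos _).le)

/-- Counting: at most `exp (N h)` sequences have `p^N`-probability at least `exp (- N h)`. -/
theorem card_likely {ι : Type} [Fintype ι] [DecidableEq ι] (p : ι → ℝ) (hp : ∀ s, 0 ≤ p s)
    (hp1 : ∑ s, p s = 1) (N : ℕ) (a : ℝ) (ha : 0 < a) :
    (((univ : Finset (Fin N → ι)).filter (fun x => a ≤ ∏ j, p (x j))).card : ℝ) ≤ 1 / a := by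
  rw [le_div_iff₀ ha]
  have h1 : ∑ x : Fin N → ι, ∏ j, p (x j) = 1 := by
    rw [← Fintype.sum_pow, hp1, one_pow]
  calc (((univ : Finset (Fin N → ι)).filter (fun x => a ≤ ∏ j, p (x j))).card : ℝ) * a
      = ∑ x ∈ (univ : Finset (Fin N → ι)).filter (fun x => a ≤ ∏ j, p (x j)), a := by
        rw [Finset.sum_const, nsmul_eq_mul]
    _ ≤ ∑ x ∈ (univ : Finset (Fin N → ι)).filter (fun x => a ≤ ∏ j, p (x j)), ∏ j, p (x j) :=
        Finset.sum_le_sum (fun x hx => (Finset.mem_filter.1 hx).2)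
    _ ≤ ∑ x : Fin N → ι, ∏ j, p (x j) :=
        Finset.sum_le_sum_of_subset_of_nonneg (Finset.subset_univ _)
          (fun x _ _ => Finset.prod_nonneg (fun j _ => hp _))
    _ = 1 := h1

end Pool.Agent.Lib.MP_8f149a_co
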