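import Pool.Agent.Lib.MP_8f149a_co.Growth
import Pool.Agent.Lib.MP_8f149a_co.Typ

/-!
# The entropy upper bound: `H(X) ≤ expo * max H(X_i)` for every random vector with patterns in I
-/

set_option autoImplicit false

namespace Pool.Agent.Lib.MP_8f149a_co

open Finset Filter Topology

private theorem entUp_model {k : ℕ} {L : Finset ℕ} {I : Finset (Finset (Fin k))}
    (hI : IsPattern k L I) (S : Finset (Fin k → ℕ)) (hS : IsModel I S) {N : ℕ}
    (z z' : Fin N → {s // s ∈ S}) (J : Finset (Fin N)) (hJ : J.Nonempty)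
    (hne : ∀ j ∈ J, z j ≠ z' j) :
    (univ.filter fun i : Fin k => ∀ j ∈ J, (z j).1 i = (z' j).1 i) ∈ I := by
  induction hJ using Finset.Nonempty.cons_induction with
  | singleton a =>
    have h1 : agr (z a).1 (z' a).1 ∈ I :=
      hS _ (z a).2 _ (z' a).2 (fun h => hne a (Finset.mem_singleton_self a) (Subtype.ext h))
    have h2 : (univ.filter fun i : Fin k => ∀ j ∈ ({a} : Finset (Fin N)), (z j).1 i = (z' j).1 i) =
        agr (z a).1 (z' a).1 := by
      ext i
      simp [agr]
    rw [h2]
    exact h1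
  | cons a s ha hs ih =>
    have h1 : agr (z a).1 (z' a).1 ∈ I :=
      hS _ (z a).2 _ (z' a).2 (fun h => hne a (Finset.mem_cons_self a s) (Subtype.ext h))
    have h3 := ih (fun j hj => hne j (Finset.mem_cons_of_mem hj))
    have h2 : (univ.filter fun i : Fin k => ∀ j ∈ Finset.cons a s ha, (z j).1 i = (z' j).1 i) =
        agr (z a).1 (z' a).1 ∩
          (univ.filter fun i : Fin k => ∀ j ∈ s, (z j).1 i = (z' j).1 i) := by
      ext i
      simp [agr]
    rw [h2]
    exact hI.1 _ h1 _ h3

/-- For every `ε > 0` and all large `N` there is a model with at least `exp (N (H - ε)) / 2`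
vectors and at most `exp (N (H_i + ε))` letters in coordinate `i`. -/
theorem exists_typical {k : ℕ} {L : Finset ℕ} {I : Finset (Finset (Fin k))}
    (hI : IsPattern k L I) (S : Finset (Fin k → ℕ)) (hS : IsModel I S)
    (p : (Fin k → ℕ) → ℝ) (hp : ∀ s ∈ S, 0 < p s) (hp1 : ∑ s ∈ S, p s = 1) (ε : ℝ) (hε : 0 < ε) :
    ∀ᶠ N : ℕ in atTop, ∃ T : Finset (Fin k → (Fin N → ℕ)), IsModel I T ∧
      Real.exp (N * (ent S p - ε)) / 2 ≤ T.card ∧
      ∀ i, ((T.image fun x => x i).card : ℝ) ≤ Real.exp (N * (margEnt S p i + ε)) := by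
  classical
  -- the finite type and the distributions
  set pm : Fin k → ℕ → ℝ := fun i a => ∑ s ∈ S.filter (fun s => s i = a), p s with hpm
  have hq0 : ∀ s : {s // s ∈ S}, 0 < p s.1 := fun s => hp s.1 s.2
  have hq1 : ∑ s : {s // s ∈ S}, p s.1 = 1 := by
    rw [← hp1, ← Finset.sum_coe_sort S p]
  have hpm_nonneg : ∀ i a, 0 ≤ pm i a := fun i a =>
    Finset.sum_nonneg fun s hs => (hp s (Finset.mem_filter.mp hs).1).le
  have hpm_pos : ∀ (i : Fin k) (s : {s // s ∈ S}), 0 < pm i (s.1 i) := by
    intro i s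
    refine Finset.sum_pos (fun t ht => hp t (Finset.mem_filter.mp ht).1) ⟨s.1, ?_⟩
    exact Finset.mem_filter.mpr ⟨s.2, rfl⟩
  -- the means
  have hmean1 : ∑ s : {s // s ∈ S}, p s.1 * Real.log (p s.1) = - ent S p := by
    rw [ent, ← Finset.sum_coe_sort S (fun s => Real.negMulLog (p s)), ← Finset.sum_neg_distrib]
    refine Finset.sum_congr rfl fun s _ => ?_
    rw [Real.negMulLog]
    ring
  have hmean2 : ∀ i, ∑ s : {s // s ∈ S}, p s.1 * (- Real.log (pm i (s.1 i))) = margEnt S p i := by
    intro i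
    have e1 : ∑ s : {s // s ∈ S}, p s.1 * (- Real.log (pm i (s.1 i))) =
        ∑ s ∈ S, p s * (- Real.log (pm i (s i))) :=
      Finset.sum_coe_sort S (fun s => p s * (- Real.log (pm i (s i))))
    rw [e1, margEnt]
    rw [← Finset.sum_fiberwise_of_maps_to (s := S) (t := S.image fun s => s i) (g := fun s => s i)
      (fun s hs => Finset.mem_image_of_mem _ hs)]
    refine Finset.sum_congr rfl fun a _ => ?_
    have e2 : ∑ s ∈ S.filter (fun s => s i = a), p s * (- Real.log (pm i (s i))) =
        ∑ s ∈ S.filter (fun s => s i = a), p s * (- Real.log (pm i a)) := by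
      refine Finset.sum_congr rfl fun s hs => ?_
      rw [(Finset.mem_filter.mp hs).2]
    rw [e2, ← Finset.sum_mul, Real.negMulLog]
    ring
  -- Chernoff
  have hc1 := chernoff (fun s : {s // s ∈ S} => p s.1) (fun s => (hq0 s).le) hq1
    (fun s => Real.log (p s.1)) ε hε
  have hc2 := fun i : Fin k => chernoff (fun s : {s // s ∈ S} => p s.1) (fun s => (hq0 s).le) hq1
    (fun s => - Real.log (pm i (s.1 i))) ε hε
  have hδ : (0 : ℝ) < 1 / (2 * (k + 1)) := by positivity
  have ev1 := hc1.eventually (gt_mem_nhds hδ)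
  have ev2 : ∀ᶠ N : ℕ in atTop, ∀ i : Fin k, _ := eventually_all.mpr
    (fun i => (hc2 i).eventually (gt_mem_nhds hδ))
  filter_upwards [ev1, ev2] with N hN1 hN2
  set w : (Fin N → {s // s ∈ S}) → ℝ := fun z => ∏ j, p (z j).1 with hw
  have hw0 : ∀ z, 0 ≤ w z := fun z => Finset.prod_nonneg fun j _ => (hq0 (z j)).le
  set B1 : Finset (Fin N → {s // s ∈ S}) := univ.filter
    (fun x => (N : ℝ) * (∑ s : {s // s ∈ S}, p s.1 * Real.log (p s.1) + ε) ≤
      ∑ j, Real.log (p (x j).1)) with hB1
  set B2 : Fin k → Finset (Fin N → {s // s ∈ S}) := fun i => univ.filter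
    (fun x => (N : ℝ) * (∑ s : {s // s ∈ S}, p s.1 * (- Real.log (pm i (s.1 i))) + ε) ≤
      ∑ j, (- Real.log (pm i ((x j).1 i)))) with hB2
  set Z : Finset (Fin N → {s // s ∈ S}) := univ.filter
    (fun z => z ∉ B1 ∧ ∀ i, z ∉ B2 i) with hZ
  -- the mass of typical sequences
  have htot : ∑ z : Fin N → {s // s ∈ S}, w z = 1 := by
    have h := Finset.prod_univ_sum (fun _ : Fin N => (univ : Finset {s // s ∈ S}))
      (fun _ s => p s.1)
    rw [Fintype.piFinset_univ] at h
    rw [hw, ← h, Finset.prod_const, hq1, one_pow]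
  have hcover : (univ : Finset (Fin N → {s // s ∈ S})) ⊆ Z ∪ (B1 ∪ univ.biUnion B2) := by
    intro z _
    by_cases h1 : z ∈ B1
    · exact Finset.mem_union_right _ (Finset.mem_union_left _ h1)
    · by_cases h2 : ∀ i, z ∉ B2 i
      · exact Finset.mem_union_left _ (Finset.mem_filter.mpr ⟨Finset.mem_univ _, h1, h2⟩)
      · push Not at h2
        obtain ⟨i, hi⟩ := h2
        exact Finset.mem_union_right _ (Finset.mem_union_right _
          (Finset.mem_biUnion.mpr ⟨i, Finset.mem_univ _, hi⟩))
  have hunion : ∀ X Y : Finset (Fin N → {s // s ∈ S}),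
      ∑ z ∈ X ∪ Y, w z ≤ ∑ z ∈ X, w z + ∑ z ∈ Y, w z := by
    intro X Y
    rw [← Finset.sum_union_inter]
    have : 0 ≤ ∑ z ∈ X ∩ Y, w z := Finset.sum_nonneg fun z _ => hw0 z
    linarith
  have hbi : ∑ z ∈ univ.biUnion B2, w z ≤ ∑ i, ∑ z ∈ B2 i, w z := by
    have hgen : ∀ Q : Finset (Fin k), ∑ z ∈ Q.biUnion B2, w z ≤ ∑ i ∈ Q, ∑ z ∈ B2 i, w z := by
      intro Q
      induction Q using Finset.induction_on with
      | empty => simp
      | insert a Q ha ih =>
        rw [Finset.biUnion_insert, Finset.sum_insert ha]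
        exact (hunion _ _).trans (add_le_add le_rfl ih)
    exact hgen univ
  have hmass : (1 : ℝ) / 2 ≤ ∑ z ∈ Z, w z := by
    have h1 : (1 : ℝ) ≤ ∑ z ∈ Z, w z + (∑ z ∈ B1, w z + ∑ i, ∑ z ∈ B2 i, w z) := by
      calc (1 : ℝ) = ∑ z, w z := htot.symm
        _ ≤ ∑ z ∈ Z ∪ (B1 ∪ univ.biUnion B2), w z :=
            Finset.sum_le_sum_of_subset_of_nonneg hcover fun z _ _ => hw0 z
        _ ≤ ∑ z ∈ Z, w z + ∑ z ∈ B1 ∪ univ.biUnion B2, w z := hunion _ _
        _ ≤ ∑ z ∈ Z, w z + (∑ z ∈ B1, w z + ∑ i, ∑ z ∈ B2 i, w z) := by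
            have := hunion B1 (univ.biUnion B2)
            linarith
    have h2 : ∑ i : Fin k, ∑ z ∈ B2 i, w z ≤ k * (1 / (2 * (k + 1))) := by
      calc ∑ i : Fin k, ∑ z ∈ B2 i, w z ≤ ∑ _i : Fin k, (1 / (2 * ((k : ℝ) + 1))) :=
            Finset.sum_le_sum fun i _ => (hN2 i).le
        _ = k * (1 / (2 * (k + 1))) := by simp
    have h3 : ∑ z ∈ B1, w z ≤ 1 / (2 * (k + 1)) := hN1.le
    have h4 : (1 : ℝ) / (2 * (k + 1)) + k * (1 / (2 * (k + 1))) = 1 / 2 := by
      field_simp
      ring
    linarith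
  -- bounds on typical sequences
  have hZ1 : ∀ z ∈ Z, w z ≤ Real.exp (-(N * (ent S p - ε))) := by
    intro z hz
    have hz1 := (Finset.mem_filter.mp hz).2.1
    have h5 : ∑ j, Real.log (p (z j).1) < (N : ℝ) * (-(ent S p) + ε) := by
      by_contra hcon
      push Not at hcon
      apply hz1
      rw [hB1, Finset.mem_filter]
      refine ⟨Finset.mem_univ _, ?_⟩
      rw [hmean1]
      exact hcon
    have h6 : w z = Real.exp (∑ j, Real.log (p (z j).1)) := by
      rw [Real.exp_sum]
      refine Finset.prod_congr rfl fun j _ => ?_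
      rw [Real.exp_log (hq0 (z j))]
    rw [h6]
    apply Real.exp_le_exp.mpr
    have h7 : (N : ℝ) * (-(ent S p) + ε) = -(N * (ent S p - ε)) := by ring
    linarith
  have hZ2 : ∀ z ∈ Z, ∀ i, Real.exp (-(N * (margEnt S p i + ε))) ≤ ∏ j, pm i ((z j).1 i) := by
    intro z hz i
    have hz1 := (Finset.mem_filter.mp hz).2.2 i
    have h5 : ∑ j, (- Real.log (pm i ((z j).1 i))) < (N : ℝ) * (margEnt S p i + ε) := by
      by_contra hcon
      push Not at hcon
      apply hz1
      rw [hB2, Finset.mem_filter]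
      refine ⟨Finset.mem_univ _, ?_⟩
      rw [hmean2]
      exact hcon
    have h6 : ∏ j, pm i ((z j).1 i) = Real.exp (∑ j, Real.log (pm i ((z j).1 i))) := by
      rw [Real.exp_sum]
      refine Finset.prod_congr rfl fun j _ => ?_
      rw [Real.exp_log (hpm_pos i (z j))]
    rw [h6]
    apply Real.exp_le_exp.mpr
    rw [Finset.sum_neg_distrib] at h5
    linarith
  -- the number of typical sequences
  have hcardZ : Real.exp (N * (ent S p - ε)) / 2 ≤ Z.card := by
    have h8 : (1 : ℝ) / 2 ≤ Z.card * Real.exp (-(N * (ent S p - ε))) := by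
      calc (1 : ℝ) / 2 ≤ ∑ z ∈ Z, w z := hmass
        _ ≤ ∑ _z ∈ Z, Real.exp (-(N * (ent S p - ε))) := Finset.sum_le_sum hZ1
        _ = Z.card * Real.exp (-(N * (ent S p - ε))) := by
            rw [Finset.sum_const, nsmul_eq_mul]
    rw [Real.exp_neg, ← div_eq_mul_inv, le_div_iff₀ (Real.exp_pos _)] at h8
    linarith
  -- the model
  set G : (Fin N → {s // s ∈ S}) → (Fin k → (Fin N → ℕ)) := fun z i j => (z j).1 i with hG
  have hGinj : Function.Injective G := by
    intro z z' h
    funext j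
    apply Subtype.ext
    funext i
    have := congrFun (congrFun h i) j
    exact this
  refine ⟨Z.image G, ?_, ?_, ?_⟩
  · intro x hx y hy hxy
    obtain ⟨z, hz, rfl⟩ := Finset.mem_image.mp hx
    obtain ⟨z', hz', rfl⟩ := Finset.mem_image.mp hy
    have hzz : z ≠ z' := fun h => hxy (by rw [h])
    have hJne : (univ.filter fun j => z j ≠ z' j).Nonempty := by
      by_contra hcon
      rw [Finset.not_nonempty_iff_eq_empty, Finset.filter_eq_empty_iff] at hcon
      apply hzz
      funext j
      have := hcon (Finset.mem_univ j)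
      push Not at this
      exact this
    have hm := entUp_model hI S hS z z' (univ.filter fun j => z j ≠ z' j) hJne
      (fun j hj => (Finset.mem_filter.mp hj).2)
    have he : agr (G z) (G z') = (univ.filter fun i : Fin k =>
        ∀ j ∈ (univ.filter fun j => z j ≠ z' j), (z j).1 i = (z' j).1 i) := by
      ext i
      simp only [agr, Finset.mem_filter, Finset.mem_univ, true_and]
      constructor
      · intro h j _
        exact congrFun h j
      · intro h
        funext j
        show (z j).1 i = (z' j).1 i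
        by_cases hj : z j = z' j
        · rw [hj]
        · exact h j hj
    rw [he]
    exact hm
  · rw [Finset.card_image_of_injective _ hGinj]
    exact hcardZ
  · intro i
    set A : Finset ℕ := S.image fun s => s i with hA
    have hA1 : ∑ a : {a // a ∈ A}, pm i a.1 = 1 := by
      rw [Finset.sum_coe_sort A (fun a => pm i a), ← hp1]
      exact Finset.sum_fiberwise_of_maps_to (fun s hs => Finset.mem_image_of_mem _ hs) p
    have hl := card_likely (fun a : {a // a ∈ A} => pm i a.1) (fun a => hpm_nonneg i a.1) hA1 N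
      (Real.exp (-(N * (margEnt S p i + ε)))) (Real.exp_pos _)
    have hsub : ((Z.image G).image fun x => x i) ⊆
        ((univ : Finset (Fin N → {a // a ∈ A})).filter
          (fun x => Real.exp (-(N * (margEnt S p i + ε))) ≤ ∏ j, pm i (x j).1)).image
          (fun x j => (x j).1) := by
      intro y hy
      obtain ⟨x, hx, rfl⟩ := Finset.mem_image.mp hy
      obtain ⟨z, hz, rfl⟩ := Finset.mem_image.mp hx
      refine Finset.mem_image.mpr ⟨fun j => ⟨(z j).1 i, Finset.mem_image_of_mem _ (z j).2⟩, ?_, rfl⟩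
      exact Finset.mem_filter.mpr ⟨Finset.mem_univ _, hZ2 z hz i⟩
    calc (((Z.image G).image fun x => x i).card : ℝ)
        ≤ (((univ : Finset (Fin N → {a // a ∈ A})).filter
          (fun x => Real.exp (-(N * (margEnt S p i + ε))) ≤ ∏ j, pm i (x j).1)).card : ℝ) :=
          Nat.cast_le.mpr ((Finset.card_le_card hsub).trans Finset.card_image_le)
      _ ≤ 1 / Real.exp (-(N * (margEnt S p i + ε))) := hl
      _ = Real.exp (N * (margEnt S p i + ε)) := by
          rw [Real.exp_neg, one_div, inv_inv]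

theorem ent_le {k : ℕ} {L : Finset ℕ} {I : Finset (Finset (Fin k))}
    (hI : IsPattern k L I) (S : Finset (Fin k → ℕ)) (hS : IsModel I S)
    (p : (Fin k → ℕ) → ℝ) (hp : ∀ s ∈ S, 0 ≤ p s) (hp1 : ∑ s ∈ S, p s = 1) (h : ℝ) (h0 : 0 ≤ h)
    (hm : ∀ i, margEnt S p i ≤ h) : ent S p ≤ expo k L * h := by
  classical
  set S0 : Finset (Fin k → ℕ) := S.filter fun s => p s ≠ 0 with hS0
  have hS0S : S0 ⊆ S := Finset.filter_subset _ _
  have hpos : ∀ s ∈ S0, 0 < p s := fun s hs =>
    lt_of_le_of_ne (hp s (hS0S hs)) (Ne.symm (Finset.mem_filter.mp hs).2)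
  have hmod : IsModel I S0 := fun x hx y hy hxy => hS x (hS0S hx) y (hS0S hy) hxy
  have hzero : ∀ s ∈ S, s ∉ S0 → p s = 0 := by
    intro s hs hs0
    by_contra hcon
    exact hs0 (Finset.mem_filter.mpr ⟨hs, hcon⟩)
  have hsum : ∑ s ∈ S0, p s = 1 := by
    rw [← hp1]
    exact Finset.sum_subset hS0S hzero
  have hent : ent S0 p = ent S p := by
    unfold ent
    refine Finset.sum_subset hS0S fun s hs hs0 => ?_
    rw [hzero s hs hs0, Real.negMulLog_zero]
  have hfil : ∀ i a, ∑ s ∈ S0.filter (fun s => s i = a), p s =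
      ∑ s ∈ S.filter (fun s => s i = a), p s := by
    intro i a
    refine Finset.sum_subset (Finset.filter_subset_filter _ hS0S) fun s hs hs0 => ?_
    apply hzero s (Finset.mem_filter.mp hs).1
    intro hcon
    exact hs0 (Finset.mem_filter.mpr ⟨hcon, (Finset.mem_filter.mp hs).2⟩)
  have hmarg : ∀ i, margEnt S0 p i = margEnt S p i := by
    intro i
    unfold margEnt
    rw [Finset.sum_congr rfl fun a _ => by rw [hfil i a]]
    refine Finset.sum_subset (Finset.image_subset_image hS0S) fun a _ ha => ?_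
    have h1 : ∑ s ∈ S.filter (fun s => s i = a), p s = 0 := by
      rw [← hfil i a]
      apply Finset.sum_eq_zero
      intro s hs
      exfalso
      apply ha
      have := Finset.mem_filter.mp hs
      rw [← this.2]
      exact Finset.mem_image_of_mem _ this.1
    rw [h1, Real.negMulLog_zero]
  have hex := expo_nonneg k L
  -- the main estimate
  have key : ∀ ε : ℝ, 0 < ε → ent S p ≤ expo k L * h + ε * (expo k L + 2) := by
    intro ε hε
    have hty := exists_typical hI S0 hmod p hpos hsum ε hε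
    obtain ⟨N0, hN0⟩ := exists_nat_ge (Real.log 2 / ε)
    obtain ⟨N, ⟨T, hT, hTc, hTl⟩, hN⟩ := (hty.and (eventually_ge_atTop (N0 + 1))).exists
    have hNpos : (0 : ℝ) < N := by
      have : 0 < N := by omega
      exact_mod_cast this
    have hlog2 : Real.log 2 ≤ N * ε := by
      have h1 : Real.log 2 / ε ≤ N := by
        refine hN0.trans ?_
        have : N0 ≤ N := by omega
        exact_mod_cast this
      rw [div_le_iff₀ hε] at h1
      exact h1
    have hexp1 : (1 : ℝ) ≤ Real.exp (N * (h + ε)) := Real.one_le_exp (by positivity)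
    set q : ℕ := ⌊Real.exp (N * (h + ε))⌋₊ with hq
    have hq1 : 1 ≤ q := by
      rw [hq, Nat.one_le_floor_iff]
      exact hexp1
    have hle : ∀ i : Fin k, (T.image fun x => x i).card ≤ Fintype.card (Fin q) := by
      intro i
      rw [Fintype.card_fin, hq]
      apply Nat.le_floor
      refine (hTl i).trans (Real.exp_le_exp.mpr ?_)
      apply mul_le_mul_of_nonneg_left _ hNpos.le
      rw [hmarg i]
      linarith [hm i]
    obtain ⟨S', hS', hcard⟩ := exists_relabel (Y := Fin q) T hT hle
    have hmodel := card_model_le hI q hq1 S' hS'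
    have hqle : (q : ℝ) ≤ Real.exp (N * (h + ε)) := Nat.floor_le (Real.exp_pos _).le
    have h2 : Real.exp (N * (ent S p - ε)) / 2 ≤ Real.exp (N * (h + ε) * expo k L) := by
      calc Real.exp (N * (ent S p - ε)) / 2 ≤ T.card := by rw [← hent]; exact hTc
        _ = S'.card := by rw [hcard]
        _ ≤ (q : ℝ) ^ expo k L := hmodel
        _ ≤ (Real.exp (N * (h + ε))) ^ expo k L :=
            Real.rpow_le_rpow (Nat.cast_nonneg _) hqle hex
        _ = Real.exp (N * (h + ε) * expo k L) := (Real.exp_mul _ _).symm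
    have h3 : N * (ent S p - ε) - Real.log 2 ≤ N * (h + ε) * expo k L := by
      have h4 := Real.log_le_log (by positivity) h2
      rw [Real.log_div (Real.exp_pos _).ne' (by norm_num), Real.log_exp, Real.log_exp] at h4
      exact h4
    have h5 : N * ent S p ≤ N * (expo k L * h + ε * (expo k L + 2)) := by
      have e1 : N * (expo k L * h + ε * (expo k L + 2)) =
          N * (h + ε) * expo k L + N * ε + N * ε := by ring
      rw [e1]
      have e2 : N * (ent S p - ε) = N * ent S p - N * ε := by ring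
      linarith
    exact le_of_mul_le_mul_left h5 hNpos
  apply le_of_forall_pos_le_add
  intro δ hδ
  have h6 := key (δ / (expo k L + 2)) (by positivity)
  rw [div_mul_cancel₀ _ (by positivity)] at h6
  exact h6

end Pool.Agent.Lib.MP_8f149a_co
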