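import Pool.Agent.Lib.MP_8f149a_co.Star

/-!
# Furedi's intersection semilattice theorem (the form needed here)
-/

set_option autoImplicit false

namespace Pool.Agent.Lib.MP_8f149a_co

open Finset

/-- Homogenisation with the exceptional set of patterns `K` (induction on the size of `K`). -/
theorem furedi_aux (k : ℕ) (L : Finset ℕ) (t : ℕ) :
    ∃ c : ℕ, 0 < c ∧ ∀ (X : Type) [DecidableEq X] (K : Finset (Finset (Fin k)))
      (G : Finset (Fin k → X)), K.card ≤ t →
      (∀ A ∈ K, A ≠ univ) →
      (∀ x ∈ G, ∀ y ∈ G, x ≠ y → agr x y ∈ K ∧ (agr x y).card ∈ L) →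
      ∃ I, IsPattern k L I ∧ ∃ H ⊆ G, IsModel I H ∧ G.card ≤ c * H.card := by
  induction t with
  | zero =>
    refine ⟨1, one_pos, fun X _ K G hK _ hG => ?_⟩
    have hK0 : K = ∅ := Finset.card_eq_zero.mp (Nat.le_zero.mp hK)
    refine ⟨∅, ⟨by simp, by simp⟩, G, subset_rfl, ?_, by simp⟩
    intro x hx y hy hxy
    have h := (hG x hx y hy hxy).1
    rw [hK0] at h
    exact h
  | succ t ih =>
    obtain ⟨c, hc, ih⟩ := ih
    refine ⟨2 + 2 * (t + 1) * (k * k) * c, by positivity, fun X _ K G hK hKu hG => ?_⟩
    obtain ⟨H, R, hHG, hRG, hcov, hH, hR⟩ := clean (k + 1) K G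
    rcases G.eq_empty_or_nonempty with hGe | hGne
    · refine ⟨∅, ⟨by simp, by simp⟩, G, subset_rfl, ?_, ?_⟩
      · intro x hx
        rw [hGe] at hx
        exact absurd hx (by simp)
      · rw [hGe]
        simp
    · have hGpos : 0 < G.card := hGne.card_pos
      by_cases hcase : G.card ≤ 2 * H.card
      · have hHne : H.Nonempty := by
          rw [← Finset.card_pos]
          omega
        obtain ⟨x, hx⟩ := hHne
        refine ⟨K, ⟨?_, ?_⟩, H, hHG, ?_, ?_⟩
        · intro A hA B hB
          obtain ⟨y, hy, z, hz, hyz, he⟩ :=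
            star_inter A B (hKu A hA) x H (hH x hx A hA) (hH x hx B hB)
          rw [← he]
          exact (hG y (hHG hy) z (hHG hz) hyz).1
        · intro A hA
          refine ⟨?_, hKu A hA⟩
          have hk : 0 < k := by
            rcases Nat.eq_zero_or_pos k with h0 | h0
            · exfalso
              subst h0
              apply hKu A hA
              ext i
              exact i.elim0
            · exact h0
          obtain ⟨T, hTH, hTc, _, hTa⟩ := hH x hx A hA
          have h1 : 1 < T.card := by omega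
          obtain ⟨y, hy, z, hz, hyz⟩ := Finset.one_lt_card.mp h1
          have h2 := (hG y (hHG (hTH hy)) z (hHG (hTH hz)) hyz).2
          rw [hTa y hy z hz hyz] at h2
          exact h2
        · intro y hy z hz hyz
          exact (hG y (hHG hy) z (hHG hz) hyz).1
        · calc G.card ≤ 2 * H.card := hcase
            _ ≤ (2 + 2 * (t + 1) * (k * k) * c) * H.card :=
              Nat.mul_le_mul_right _ (Nat.le_add_right _ _)
      · push Not at hcase
        have hsum : G.card ≤ H.card + ∑ A ∈ K, (R A).card := by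
          calc G.card ≤ (H ∪ K.biUnion R).card := Finset.card_le_card hcov
            _ ≤ H.card + (K.biUnion R).card := Finset.card_union_le _ _
            _ ≤ H.card + ∑ A ∈ K, (R A).card := by
              have := Finset.card_biUnion_le (s := K) (t := R)
              omega
        have hex : ∃ A ∈ K, G.card ≤ 2 * (t + 1) * (R A).card := by
          by_contra hcon
          push Not at hcon
          have hsumle : ∑ A ∈ K, (2 * (t + 1) * (R A).card) ≤ ∑ _A ∈ K, G.card :=
            Finset.sum_le_sum fun A hA => (hcon A hA).le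
          rw [← Finset.mul_sum, Finset.sum_const, smul_eq_mul] at hsumle
          have hKG : K.card * G.card ≤ (t + 1) * G.card := Nat.mul_le_mul_right _ hK
          have h3 : (t + 1) * (2 * ∑ A ∈ K, (R A).card) ≤ (t + 1) * G.card := by
            calc (t + 1) * (2 * ∑ A ∈ K, (R A).card) = 2 * (t + 1) * ∑ A ∈ K, (R A).card := by ring
              _ ≤ K.card * G.card := hsumle
              _ ≤ (t + 1) * G.card := hKG
          have h4 : 2 * ∑ A ∈ K, (R A).card ≤ G.card :=
            Nat.le_of_mul_le_mul_left h3 (Nat.succ_pos t)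
          omega
        obtain ⟨A, hA, hGA⟩ := hex
        obtain ⟨R', hR'sub, hR'card, hR'no⟩ := cover k A (hKu A hA) (R A) (hR A hA)
        have hR'G : R' ⊆ G := hR'sub.trans (hRG A)
        obtain ⟨I, hI, H', hH'sub, hH'model, hH'card⟩ := ih X (K.erase A) R'
          (by
            rw [Finset.card_erase_of_mem hA]
            omega)
          (fun B hB => hKu B (Finset.mem_of_mem_erase hB))
          (by
            intro x hx y hy hxy
            have h := hG x (hR'G hx) y (hR'G hy) hxy
            exact ⟨Finset.mem_erase.mpr ⟨hR'no x hx y hy hxy, h.1⟩, h.2⟩)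
        refine ⟨I, hI, H', hH'sub.trans hR'G, hH'model, ?_⟩
        calc G.card ≤ 2 * (t + 1) * (R A).card := hGA
          _ ≤ 2 * (t + 1) * ((k * k) * R'.card) := Nat.mul_le_mul_left _ hR'card
          _ ≤ 2 * (t + 1) * ((k * k) * (c * H'.card)) :=
            Nat.mul_le_mul_left _ (Nat.mul_le_mul_left _ hH'card)
          _ = (2 * (t + 1) * (k * k) * c) * H'.card := by ring
          _ ≤ (2 + 2 * (t + 1) * (k * k) * c) * H'.card :=
            Nat.mul_le_mul_right _ (Nat.le_add_left _ _)

/-- Furedi's theorem: a bounded proportion of the vectors forms a model of an intersection closed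
family of patterns. -/
theorem furedi (k : ℕ) (L : Finset ℕ) :
    ∃ c : ℕ, 0 < c ∧ ∀ (X : Type) [DecidableEq X] (G : Finset (Fin k → X)),
      (∀ x ∈ G, ∀ y ∈ G, x ≠ y → (agr x y).card ∈ L) →
      ∃ I, IsPattern k L I ∧ ∃ H ⊆ G, IsModel I H ∧ G.card ≤ c * H.card := by
  classical
  obtain ⟨c, hc, h⟩ := furedi_aux k L (univ.filter fun A : Finset (Fin k) => A ≠ univ).card
  refine ⟨c, hc, fun X _ G hG => ?_⟩
  refine h X _ G le_rfl (fun A hA => (mem_filter.1 hA).2) fun x hx y hy hxy => ?_
  exact ⟨mem_filter.2 ⟨mem_univ _, agr_ne_univ hxy⟩, hG x hx y hy hxy⟩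

end Pool.Agent.Lib.MP_8f149a_co
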