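import Pool.Agent.Lib.MP_8f149a_co.Furedi
import Pool.Agent.Lib.MP_8f149a_co.Color
import Pool.Agent.Lib.MP_8f149a_co.Back

/-!
# The growth exponent
-/

set_option autoImplicit false

namespace Pool.Agent.Lib.MP_8f149a_co

open Finset Filter Topology

/-- The set of lower bounds for the exponent given by finite models. -/
def expSet (k : ℕ) (L : Finset ℕ) : Set ℝ :=
  {r | r = 0 ∨ ∃ I, IsPattern k L I ∧ ∃ q : ℕ, 2 ≤ q ∧ ∃ S : Finset (Fin k → Fin q),
    IsModel I S ∧ S.Nonempty ∧ r = Real.log S.card / Real.log q}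

/-- The growth exponent. -/
noncomputable def expo (k : ℕ) (L : Finset ℕ) : ℝ := sSup (expSet k L)

private theorem growth_card_le {k q : ℕ} (S : Finset (Fin k → Fin q)) : S.card ≤ q ^ k := by
  refine (Finset.card_le_univ S).trans ?_
  rw [Fintype.card_fun, Fintype.card_fin, Fintype.card_fin]

theorem bddAbove_expSet (k : ℕ) (L : Finset ℕ) : BddAbove (expSet k L) := by
  refine ⟨k, ?_⟩
  rintro r (rfl | ⟨I, _, q, hq, S, _, hne, rfl⟩)
  · exact Nat.cast_nonneg k
  · have hlog : 0 < Real.log q := Real.log_pos (by exact_mod_cast hq)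
    rw [div_le_iff₀ hlog, ← Real.log_pow]
    apply Real.log_le_log
    · exact_mod_cast hne.card_pos
    · exact_mod_cast growth_card_le S

theorem expo_nonneg (k : ℕ) (L : Finset ℕ) : 0 ≤ expo k L :=
  le_csSup (bddAbove_expSet k L) (Or.inl rfl)

/-- Every model over an alphabet of `q ≥ 1` letters has at most `q ^ expo` vectors. -/
theorem card_model_le {k : ℕ} {L : Finset ℕ} {I : Finset (Finset (Fin k))}
    (hI : IsPattern k L I) (q : ℕ) (hq : 1 ≤ q) (S : Finset (Fin k → Fin q))
    (hS : IsModel I S) : (S.card : ℝ) ≤ (q : ℝ) ^ expo k L := by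
  rcases Nat.eq_or_lt_of_le hq with h1 | h1
  · subst h1
    have h2 : S.card ≤ 1 := by simpa using growth_card_le S
    rw [Nat.cast_one, Real.one_rpow]
    exact_mod_cast h2
  · have hq0 : (0 : ℝ) < q := by exact_mod_cast (by omega : 0 < q)
    rcases S.eq_empty_or_nonempty with rfl | hne
    · rw [Finset.card_empty, Nat.cast_zero]
      positivity
    · have hlog : 0 < Real.log q := Real.log_pos (by exact_mod_cast h1)
      have hc : (0 : ℝ) < S.card := by exact_mod_cast hne.card_pos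
      have h3 : Real.log S.card / Real.log q ≤ expo k L :=
        le_csSup (bddAbove_expSet k L) (Or.inr ⟨I, hI, q, h1, S, hS, hne, rfl⟩)
      rw [div_le_iff₀ hlog] at h3
      rw [Real.rpow_def_of_pos hq0, ← Real.log_le_iff_le_exp hc, mul_comm]
      exact h3

/-- The upper bound `m(n,k,L) ≤ C n ^ expo`. -/
theorem maxFam_le (k : ℕ) (L : Finset ℕ) :
    ∃ C : ℝ, ∀ n : ℕ, 1 ≤ n → (maxFam n k L : ℝ) ≤ C * (n : ℝ) ^ expo k L := by
  obtain ⟨c, _, hc⟩ := furedi k L
  refine ⟨(k : ℝ) ^ k * c, fun n hn => ?_⟩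
  obtain ⟨F, hF, hFc⟩ := exists_maxFam n k L
  obtain ⟨G, hG, hGc⟩ := exists_vectors n k L F hF
  obtain ⟨I, hI, H, _, hH, hHc⟩ := hc (Fin n) G hG
  have h1 := card_model_le hI n hn H hH
  have h2 : (F.card : ℝ) ≤ (k : ℝ) ^ k * G.card := by exact_mod_cast hGc
  have h3 : (G.card : ℝ) ≤ c * H.card := by exact_mod_cast hHc
  rw [← hFc]
  calc (F.card : ℝ) ≤ (k : ℝ) ^ k * G.card := h2
    _ ≤ (k : ℝ) ^ k * (c * H.card) := by gcongr
    _ ≤ (k : ℝ) ^ k * (c * (n : ℝ) ^ expo k L) := by gcongr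
    _ = (k : ℝ) ^ k * c * (n : ℝ) ^ expo k L := by ring

/-- The lower bound `m(n,k,L) ≥ n ^ (expo - o(1))`. -/
theorem le_maxFam_eventually (k : ℕ) (L : Finset ℕ) (β : ℝ) (h0 : 0 ≤ β) (hβ : β < expo k L) :
    ∀ᶠ n : ℕ in atTop, (n : ℝ) ^ β ≤ (maxFam n k L : ℝ) := by
  obtain ⟨r, hr, hβr⟩ := exists_lt_of_lt_csSup (s := expSet k L) ⟨0, Or.inl rfl⟩ hβ
  rcases hr with hr | ⟨I, hI, q, hq, S, hS, hne, hr⟩
  · exact absurd (hr ▸ hβr) (not_lt.mpr h0)
  have hr0 : 0 < r := lt_of_le_of_lt h0 hβr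
  have hq0 : (0 : ℝ) < q := by exact_mod_cast (by omega : 0 < q)
  have hlog : 0 < Real.log q := Real.log_pos (by exact_mod_cast hq)
  have hc : (0 : ℝ) < S.card := by exact_mod_cast hne.card_pos
  have hk : 0 < k := by
    rcases Nat.eq_zero_or_pos k with h | h
    · exfalso
      subst h
      have h2 : S.card ≤ 1 := by simpa using growth_card_le S
      have h3 : S.card = 1 := le_antisymm h2 hne.card_pos
      rw [h3] at hr
      simp at hr
      exact hr0.ne' hr
    · exact h
  have hk0 : (0 : ℝ) < k := by exact_mod_cast hk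
  have hSq : (S.card : ℝ) = (q : ℝ) ^ r := by
    rw [Real.rpow_def_of_pos hq0, hr, mul_div_cancel₀ _ hlog.ne', Real.exp_log hc]
  -- `n ^ (r - β)` tends to infinity
  have hten : Tendsto (fun n : ℕ => (n : ℝ) ^ (r - β)) atTop atTop :=
    (tendsto_rpow_atTop (sub_pos.mpr hβr)).comp tendsto_natCast_atTop_atTop
  filter_upwards [hten.eventually_ge_atTop (((k : ℝ) * q) ^ r), eventually_ge_atTop k] with n hn hkn
  have hn0 : (0 : ℝ) < n := by exact_mod_cast (by omega : 0 < n)
  set t := Nat.log q (n / k) with ht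
  have hdiv : n / k ≠ 0 := (Nat.div_pos hkn hk).ne'
  have ht1 : k * q ^ t ≤ n := by
    have h1 : q ^ t ≤ n / k := Nat.pow_log_le_self q hdiv
    calc k * q ^ t ≤ k * (n / k) := Nat.mul_le_mul_left k h1
      _ ≤ n := Nat.mul_div_le n k
  have ht2 : n < k * q * q ^ t := by
    have h1 : n / k < q ^ (t + 1) := Nat.lt_pow_succ_log_self (by omega) (n / k)
    have h2 : n < k * q ^ (t + 1) := by
      rw [mul_comm]
      exact (Nat.div_lt_iff_lt_mul hk).mp h1
    calc n < k * q ^ (t + 1) := h2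
      _ = k * q * q ^ t := by ring
  obtain ⟨S', hS', hcard, -⟩ := exists_power hI S hS t
  have h4 : S'.card ≤ maxFam n k L := by
    apply card_le_maxFam hI S' hS' n
    rw [Fintype.card_fun, Fintype.card_fin, Fintype.card_fin]
    exact ht1
  rw [hcard] at h4
  have h5 : ((S.card : ℝ)) ^ t ≤ maxFam n k L := by exact_mod_cast h4
  refine le_trans ?_ h5
  have h6 : (n : ℝ) < k * q * (q : ℝ) ^ t := by exact_mod_cast ht2
  have h7 : (n : ℝ) ^ r ≤ ((k : ℝ) * q) ^ r * (S.card : ℝ) ^ t := by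
    have h8 : (S.card : ℝ) ^ t = ((q : ℝ) ^ t) ^ r := by
      rw [hSq, ← Real.rpow_natCast, ← Real.rpow_natCast, ← Real.rpow_mul hq0.le,
        ← Real.rpow_mul hq0.le, mul_comm]
    rw [h8, ← Real.mul_rpow (by positivity) (by positivity)]
    exact Real.rpow_le_rpow hn0.le h6.le hr0.le
  have h9 : (n : ℝ) ^ r = (n : ℝ) ^ (r - β) * (n : ℝ) ^ β := by
    rw [← Real.rpow_add hn0]
    congr 1
    ring
  have h10 : 0 < ((k : ℝ) * q) ^ r := by positivity
  have h11 : 0 < (n : ℝ) ^ β := by positivity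
  have h12 : ((k : ℝ) * q) ^ r * (n : ℝ) ^ β ≤ ((k : ℝ) * q) ^ r * (S.card : ℝ) ^ t := by
    calc ((k : ℝ) * q) ^ r * (n : ℝ) ^ β ≤ (n : ℝ) ^ (r - β) * (n : ℝ) ^ β := by gcongr
      _ = (n : ℝ) ^ r := h9.symm
      _ ≤ _ := h7
  exact le_of_mul_le_mul_left h12 h10

/-- The exponent exists. -/
theorem tendsto_expo (k : ℕ) (L : Finset ℕ) :
    Tendsto (fun n : ℕ => Real.log (maxFam n k L) / Real.log n) atTop (𝓝 (expo k L)) := by
  rw [tendsto_order]
  constructor
  · intro a ha
    rcases lt_or_ge a 0 with ha0 | ha0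
    · refine Eventually.of_forall fun n => ?_
      refine lt_of_lt_of_le ha0 ?_
      exact div_nonneg (Real.log_natCast_nonneg _) (Real.log_natCast_nonneg _)
    · have h1 : a < (a + expo k L) / 2 := by linarith
      have h2 : (a + expo k L) / 2 < expo k L := by linarith
      filter_upwards [le_maxFam_eventually k L _ (ha0.trans h1.le) h2, eventually_ge_atTop 2]
        with n hn hn2
      have hn0 : (0 : ℝ) < n := by exact_mod_cast (by omega : 0 < n)
      have hlog : 0 < Real.log n := Real.log_pos (by exact_mod_cast hn2)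
      rw [lt_div_iff₀ hlog]
      have h3 : Real.log ((n : ℝ) ^ ((a + expo k L) / 2)) ≤ Real.log (maxFam n k L) :=
        Real.log_le_log (by positivity) hn
      rw [Real.log_rpow hn0] at h3
      refine lt_of_lt_of_le ?_ h3
      exact mul_lt_mul_of_pos_right h1 hlog
  · intro a ha
    obtain ⟨C, hC⟩ := maxFam_le k L
    have hC1 : 1 ≤ max C 1 := le_max_right _ _
    have hlogC : Tendsto (fun n : ℕ => Real.log (max C 1) / Real.log n) atTop (𝓝 0) :=
      (Real.tendsto_log_atTop.comp tendsto_natCast_atTop_atTop).const_div_atTop _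
    have hev : ∀ᶠ n : ℕ in atTop, Real.log (max C 1) / Real.log n < a - expo k L :=
      (tendsto_order.mp hlogC).2 _ (by linarith)
    filter_upwards [hev, eventually_ge_atTop 2] with n hn hn2
    have hn0 : (0 : ℝ) < n := by exact_mod_cast (by omega : 0 < n)
    have hn1 : (1 : ℝ) ≤ n := by exact_mod_cast (by omega : 1 ≤ n)
    have hlog : 0 < Real.log n := Real.log_pos (by exact_mod_cast hn2)
    have h1 : (maxFam n k L : ℝ) ≤ max C 1 * (n : ℝ) ^ expo k L :=
      (hC n (by omega)).trans (by gcongr; exact le_max_left _ _)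
    have h2 : 1 ≤ max C 1 * (n : ℝ) ^ expo k L := by
      have h3 : 1 ≤ (n : ℝ) ^ expo k L := Real.one_le_rpow hn1 (expo_nonneg k L)
      nlinarith
    have h4 : Real.log (maxFam n k L) ≤ Real.log (max C 1) + expo k L * Real.log n := by
      rw [← Real.log_rpow hn0, ← Real.log_mul (by positivity) (by positivity)]
      rcases Nat.eq_zero_or_pos (maxFam n k L) with h5 | h5
      · rw [h5, Nat.cast_zero, Real.log_zero]
        exact Real.log_nonneg h2
      · exact Real.log_le_log (by exact_mod_cast h5) h1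
    calc Real.log (maxFam n k L) / Real.log n
        ≤ (Real.log (max C 1) + expo k L * Real.log n) / Real.log n := by gcongr
      _ = Real.log (max C 1) / Real.log n + expo k L := by
          field_simp
      _ < a := by linarith

end Pool.Agent.Lib.MP_8f149a_co
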