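import Pool.Agent.Lib.MP_8f149a_co.Defs

/-!
# Stars, cleaning and covering
-/

set_option autoImplicit false

namespace Pool.Agent.Lib.MP_8f149a_co

open Finset

variable {k : ℕ} {X : Type} [DecidableEq X]

/-- `G` contains `s` vectors which agree with `x` on `A` and which pairwise agree exactly on `A`. -/
def Star (s : ℕ) (A : Finset (Fin k)) (x : Fin k → X) (G : Finset (Fin k → X)) : Prop :=
  ∃ T ⊆ G, T.card = s ∧ (∀ y ∈ T, ∀ i ∈ A, y i = x i) ∧
    ∀ y ∈ T, ∀ z ∈ T, y ≠ z → agr y z = A

private theorem Star.mono {s : ℕ} {A : Finset (Fin k)} {x : Fin k → X} {G G' : Finset (Fin k → X)}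
    (h : Star s A x G) (hG : G ⊆ G') : Star s A x G' := by
  obtain ⟨T, h1, h2, h3, h4⟩ := h
  exact ⟨T, h1.trans hG, h2, h3, h4⟩

/-- Cleaning: remove one after the other vectors without star. -/
theorem clean (s : ℕ) (K : Finset (Finset (Fin k))) (G : Finset (Fin k → X)) :
    ∃ (H : Finset (Fin k → X)) (R : Finset (Fin k) → Finset (Fin k → X)),
      H ⊆ G ∧ (∀ A, R A ⊆ G) ∧ G ⊆ H ∪ K.biUnion R ∧
      (∀ x ∈ H, ∀ A ∈ K, Star s A x H) ∧ ∀ A ∈ K, ∀ x ∈ R A, ¬ Star s A x (R A) := by
  classical
  induction G using Finset.strongInduction with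
  | H G ih =>
    by_cases h : ∀ x ∈ G, ∀ A ∈ K, Star s A x G
    · refine ⟨G, fun _ => ∅, subset_rfl, fun A => empty_subset _, subset_union_left, h, ?_⟩
      intro A _ x hx
      simp at hx
    · push Not at h
      obtain ⟨x, hx, A, hA, hs⟩ := h
      obtain ⟨H, R, h1, h2, h3, h4, h5⟩ := ih (G.erase x) (Finset.erase_ssubset hx)
      have hRA : insert x (R A) ⊆ G := by
        intro y hy
        rcases Finset.mem_insert.1 hy with rfl | hy
        · exact hx
        · exact Finset.mem_of_mem_erase (h2 A hy)
      refine ⟨H, fun B => if B = A then insert x (R A) else R B,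
        h1.trans (Finset.erase_subset _ _), ?_, ?_, h4, ?_⟩
      · intro B
        by_cases hB : B = A
        · simp only [hB, if_true]
          exact hRA
        · simp only [hB, if_false]
          exact (h2 B).trans (Finset.erase_subset _ _)
      · intro y hy
        by_cases hyx : y = x
        · apply Finset.mem_union_right
          rw [Finset.mem_biUnion]
          refine ⟨A, hA, ?_⟩
          simp [hyx]
        · have := h3 (Finset.mem_erase.2 ⟨hyx, hy⟩)
          rcases Finset.mem_union.1 this with h' | h'
          · exact Finset.mem_union_left _ h'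
          · apply Finset.mem_union_right
            rw [Finset.mem_biUnion] at h' ⊢
            obtain ⟨B, hB, hyB⟩ := h'
            refine ⟨B, hB, ?_⟩
            by_cases hBA : B = A
            · subst hBA
              simp [hyB]
            · simp [hBA, hyB]
      · intro B hB y hy hst
        by_cases hBA : B = A
        · subst hBA
          simp only [if_true] at hy hst
          obtain ⟨T, t1, t2, t3, t4⟩ := hst
          by_cases hag : ∀ i ∈ B, y i = x i
          · apply hs
            refine ⟨T, t1.trans hRA, t2, ?_, t4⟩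
            intro z hz i hi
            rw [t3 z hz i hi, hag i hi]
          · push Not at hag
            obtain ⟨i, hi, hne⟩ := hag
            have hxT : x ∉ T := by
              intro hxT
              exact hne (t3 x hxT i hi).symm
            have hTR : T ⊆ R B := by
              intro z hz
              rcases Finset.mem_insert.1 (t1 hz) with rfl | hz'
              · exact absurd hz hxT
              · exact hz'
            have hyR : y ∈ R B := by
              rcases Finset.mem_insert.1 hy with rfl | hy'
              · exact absurd rfl hne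
              · exact hy'
            exact h5 B hB y hyR ⟨T, hTR, t2, t3, t4⟩
        · simp only [hBA, if_false] at hy hst
          exact h5 B hB y hy hst

private theorem cover_class (s : ℕ) (A : Finset (Fin k)) (hA : A ≠ univ)
    (C : Finset (Fin k → X)) (x0 : Fin k → X) (hx0 : x0 ∈ C) (hC : ∀ y ∈ C, ∀ i ∈ A, y i = x0 i)
    (hR : ¬ Star (s + 1) A x0 C) :
    ∃ C' ⊆ C, C.card ≤ (s * k) * C'.card ∧ ∀ x ∈ C', ∀ y ∈ C', x ≠ y → agr x y ≠ A := by
  classical
  obtain ⟨i0, hi0⟩ : ∃ i, i ∉ A := by
    by_contra hcon
    push Not at hcon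
    exact hA (Finset.eq_univ_iff_forall.2 hcon)
  -- a maximal set
  let P : Finset (Finset (Fin k → X)) :=
    C.powerset.filter fun T => ∀ y ∈ T, ∀ z ∈ T, y ≠ z → agr y z = A
  have hPne : P.Nonempty := ⟨∅, by simp [P]⟩
  obtain ⟨T, hTP, hTmax⟩ := Finset.exists_max_image P Finset.card hPne
  have hT := Finset.mem_filter.1 hTP
  have hTC : T ⊆ C := Finset.mem_powerset.1 hT.1
  have hTs : T.card ≤ s := by
    by_contra hcon
    push Not at hcon
    obtain ⟨T', hT'T, hT'c⟩ := Finset.exists_subset_card_eq (show s + 1 ≤ T.card by omega)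
    exact hR ⟨T', hT'T.trans hTC, hT'c, fun y hy i hi => hC y (hTC (hT'T hy)) i hi,
      fun y hy z hz hyz => hT.2 y (hT'T hy) z (hT'T hz) hyz⟩
  have hex : ∀ y ∈ C, ∃ t ∈ T, ∃ i, i ∉ A ∧ y i = t i := by
    intro y hy
    by_cases hyT : y ∈ T
    · exact ⟨y, hyT, i0, hi0, rfl⟩
    · by_contra hcon
      push Not at hcon
      have hall : ∀ t ∈ T, agr y t = A := by
        intro t ht
        ext i
        rw [mem_agr]
        constructor
        · intro h
          by_contra hiA
          exact hcon t ht i hiA h
        · intro hi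
          rw [hC y hy i hi, hC t (hTC ht) i hi]
      have hins : insert y T ∈ P := by
        rw [Finset.mem_filter, Finset.mem_powerset]
        refine ⟨Finset.insert_subset hy hTC, ?_⟩
        intro a ha b hb hab
        rcases Finset.mem_insert.1 ha with rfl | ha'
        · rcases Finset.mem_insert.1 hb with rfl | hb'
          · exact absurd rfl hab
          · exact hall b hb'
        · rcases Finset.mem_insert.1 hb with rfl | hb'
          · rw [agr_comm]
            exact hall a ha'
          · exact hT.2 a ha' b hb' hab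
      have := hTmax _ hins
      rw [Finset.card_insert_of_notMem hyT] at this
      omega
  let Q : Finset ((Fin k → X) × Fin k) := T ×ˢ (univ.filter fun i => i ∉ A)
  let F : (Fin k → X) × Fin k → Finset (Fin k → X) := fun p => C.filter fun y => y p.2 = p.1 p.2
  have hsub : C ⊆ Q.biUnion F := by
    intro y hy
    obtain ⟨t, ht, i, hi, hyt⟩ := hex y hy
    rw [Finset.mem_biUnion]
    refine ⟨(t, i), ?_, ?_⟩
    · simp [Q, ht, hi]
    · simp [F, hy, hyt]
  have hQne : Q.Nonempty := by
    obtain ⟨t, ht, i, hi, _⟩ := hex x0 hx0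
    exact ⟨(t, i), by simp [Q, ht, hi]⟩
  obtain ⟨p, hpQ, hpmax⟩ := Finset.exists_max_image Q (fun q => (F q).card) hQne
  refine ⟨F p, Finset.filter_subset _ _, ?_, ?_⟩
  · calc C.card ≤ (Q.biUnion F).card := Finset.card_le_card hsub
      _ ≤ Q.card * (F p).card := Finset.card_biUnion_le_card_mul _ _ _ hpmax
      _ ≤ (s * k) * (F p).card := by
          apply Nat.mul_le_mul_right
          rw [Finset.card_product]
          apply Nat.mul_le_mul hTs
          calc _ ≤ (univ : Finset (Fin k)).card := Finset.card_filter_le _ _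
            _ = k := by simp
  · intro a ha b hb _ hagr
    have ha' := (Finset.mem_filter.1 ha).2
    have hb' := (Finset.mem_filter.1 hb).2
    have hpA : p.2 ∉ A := by
      have := (Finset.mem_product.1 hpQ).2
      exact (Finset.mem_filter.1 this).2
    apply hpA
    rw [← hagr, mem_agr, ha', hb']

/-- Covering: a set without `s`-stars of type `A` has a large subset in which no two vectors
agree exactly on `A`. -/
theorem cover (s : ℕ) (A : Finset (Fin k)) (hA : A ≠ univ) (R : Finset (Fin k → X))
    (hR : ∀ x ∈ R, ¬ Star (s + 1) A x R) :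
    ∃ R' ⊆ R, R.card ≤ (s * k) * R'.card ∧ ∀ x ∈ R', ∀ y ∈ R', x ≠ y → agr x y ≠ A := by
  classical
  induction R using Finset.strongInduction with
  | H R ih =>
    rcases R.eq_empty_or_nonempty with rfl | ⟨x0, hx0⟩
    · exact ⟨∅, subset_rfl, by simp, by simp⟩
    · let C := R.filter fun y => ∀ i ∈ A, y i = x0 i
      have hCR : C ⊆ R := Finset.filter_subset _ _
      have hx0C : x0 ∈ C := by simp [C, hx0]
      obtain ⟨C', hC'C, hC'c, hC'⟩ := cover_class s A hA C x0 hx0C
        (fun y hy => (Finset.mem_filter.1 hy).2) (fun h => hR x0 hx0 (h.mono hCR))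
      obtain ⟨D', hD'D, hD'c, hD'⟩ := ih (R \ C)
        (Finset.sdiff_ssubset hCR ⟨x0, hx0C⟩)
        (fun x hx h => hR x (Finset.mem_sdiff.1 hx).1 (h.mono Finset.sdiff_subset))
      have hdis : Disjoint C' D' := by
        rw [Finset.disjoint_left]
        intro a ha hb
        exact (Finset.mem_sdiff.1 (hD'D hb)).2 (hC'C ha)
      have hcross : ∀ a ∈ C', ∀ b ∈ D', agr a b ≠ A := by
        intro a ha b hb hab
        have hbC := (Finset.mem_sdiff.1 (hD'D hb))
        apply hbC.2
        rw [Finset.mem_filter]
        refine ⟨hbC.1, ?_⟩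
        intro i hi
        have h1 : a i = b i := by
          rw [← mem_agr, hab]
          exact hi
        rw [← h1]
        exact (Finset.mem_filter.1 (hC'C ha)).2 i hi
      refine ⟨C' ∪ D', Finset.union_subset (hC'C.trans hCR) (hD'D.trans Finset.sdiff_subset),
        ?_, ?_⟩
      · rw [Finset.card_union_of_disjoint hdis, Nat.mul_add]
        have : R.card = C.card + (R \ C).card := by
          rw [Finset.card_sdiff_of_subset hCR]
          have := Finset.card_le_card hCR
          omega
        rw [this]
        exact Nat.add_le_add hC'c hD'c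
      · intro a ha b hb hab
        rcases Finset.mem_union.1 ha with ha' | ha'
        · rcases Finset.mem_union.1 hb with hb' | hb'
          · exact hC' a ha' b hb' hab
          · exact hcross a ha' b hb'
        · rcases Finset.mem_union.1 hb with hb' | hb'
          · rw [agr_comm]
            exact hcross b hb' a ha'
          · exact hD' a ha' b hb' hab

private theorem avoid (T : Finset (Fin k → X)) (J : Finset (Fin k)) (f : Fin k → X)
    (hT : T.card = k + 1)
    (hJ : ∀ y ∈ T, ∀ z ∈ T, y ≠ z → ∀ i ∈ J, y i ≠ z i) :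
    ∃ y ∈ T, ∀ i ∈ J, y i ≠ f i := by
  classical
  by_contra hcon
  push Not at hcon
  have hch : ∀ y : Fin k → X, ∃ i : Fin k, y ∈ T → i ∈ J ∧ y i = f i := by
    intro y
    by_cases hy : y ∈ T
    · obtain ⟨i, hi, h⟩ := hcon y hy
      exact ⟨i, fun _ => ⟨hi, h⟩⟩
    · have : T.Nonempty := by
        rw [← Finset.card_pos]
        omega
      obtain ⟨t, ht⟩ := this
      obtain ⟨i, _, _⟩ := hcon t ht
      exact ⟨i, fun h => absurd h hy⟩
  choose g hg using hch
  have hle : T.card ≤ J.card := by
    apply Finset.card_le_card_of_injOn g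
    · intro y hy
      exact (hg y hy).1
    · intro y hy z hz hyz
      by_contra hne
      apply hJ y hy z hz hne (g y) (hg y hy).1
      rw [(hg y hy).2]
      have := (hg z hz).2
      rw [← hyz] at this
      rw [this]
  have : J.card ≤ k := by
    calc J.card ≤ (univ : Finset (Fin k)).card := Finset.card_le_univ J
      _ = k := by simp
  omega

/-- Two stars through the same vector give an intersection. -/
theorem star_inter (A B : Finset (Fin k)) (hA : A ≠ univ) (x : Fin k → X)
    (G : Finset (Fin k → X)) (h1 : Star (k + 1) A x G) (h2 : Star (k + 1) B x G) :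
    ∃ y ∈ G, ∃ z ∈ G, y ≠ z ∧ agr y z = A ∩ B := by
  classical
  obtain ⟨T, a1, a2, a3, a4⟩ := h1
  obtain ⟨U, b1, b2, b3, b4⟩ := h2
  obtain ⟨y, hy, hyx⟩ := avoid T (B \ A) x a2 (by
    intro y hy z hz hyz i hi he
    have : i ∈ agr y z := mem_agr.2 he
    rw [a4 y hy z hz hyz] at this
    exact (Finset.mem_sdiff.1 hi).2 this)
  obtain ⟨z, hz, hzy⟩ := avoid U Bᶜ y b2 (by
    intro y hy z hz hyz i hi he
    have : i ∈ agr y z := mem_agr.2 he
    rw [b4 y hy z hz hyz] at this
    exact (Finset.mem_compl.1 hi) this)
  have hagr : agr y z = A ∩ B := by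
    ext i
    rw [mem_agr, Finset.mem_inter]
    constructor
    · intro he
      have hiB : i ∈ B := by
        by_contra hB
        exact hzy i (Finset.mem_compl.2 hB) he.symm
      refine ⟨?_, hiB⟩
      by_contra hiA
      apply hyx i (Finset.mem_sdiff.2 ⟨hiB, hiA⟩)
      rw [he, b3 z hz i hiB]
    · rintro ⟨hiA, hiB⟩
      rw [a3 y hy i hiA, b3 z hz i hiB]
  refine ⟨y, a1 hy, z, b1 hz, ?_, hagr⟩
  rintro rfl
  apply hA
  rw [Finset.eq_univ_iff_forall]
  intro i
  have : i ∈ agr y y := mem_agr.2 rfl
  rw [hagr] at this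
  exact (Finset.mem_inter.1 this).1

end Pool.Agent.Lib.MP_8f149a_co
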